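import Pool.Agent.HEC.Stmts

/-!
# HEC, row CST (helper67): minimal energy in a coset
-/

set_option autoImplicit false

open Finset Matrix

namespace Pool.Agent.HEC.H67

open Pool.Agent.HEC

/-- the energy -/
noncomputable def qe {I : Type} [Fintype I] [DecidableEq I] (A : Matrix I I ℝ) (x : I → ℝ) : ℝ :=
  x ⬝ᵥ (A⁻¹ *ᵥ x)

theorem qe_nonneg {I : Type} [Fintype I] [DecidableEq I] (A : Matrix I I ℝ) (hA : A.PosDef)
    (x : I → ℝ) : 0 ≤ qe A x := by
  have h := hA.inv.posSemidef.dotProduct_mulVec_nonneg x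
  rw [star_trivial] at h
  exact h

theorem qe_bound {I : Type} [Fintype I] [DecidableEq I] (A : Matrix I I ℝ) (hA : A.PosDef)
    (x : I → ℝ) (i : I) : x i ^ 2 ≤ A i i * qe A x := by
  have hdet : IsUnit A.det := (Matrix.isUnit_iff_isUnit_det A).mp hA.isUnit
  have hinv : A⁻¹ * A = 1 := Matrix.nonsing_inv_mul A hdet
  have hAs : A⁻¹ᵀ = A⁻¹ := by
    have h := hA.inv.isHermitian
    rw [Matrix.IsHermitian, Matrix.conjTranspose_eq_transpose_of_trivial] at h
    exact h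
  have hii : 0 < A i i := hA.diag_pos
  obtain ⟨e, he⟩ : ∃ e : I → ℝ, e = Pi.single i 1 := ⟨_, rfl⟩
  obtain ⟨v, hv⟩ : ∃ v : I → ℝ, v = A *ᵥ e := ⟨_, rfl⟩
  have h1 : A⁻¹ *ᵥ v = e := by
    rw [hv, Matrix.mulVec_mulVec, hinv, Matrix.one_mulVec]
  have h2 : x ⬝ᵥ e = x i := by
    rw [he, dotProduct_single_one]
  have h3 : v ⬝ᵥ e = A i i := by
    rw [he, dotProduct_single_one, hv, he, Matrix.mulVec_single_one]
    rfl
  have h4 : v ⬝ᵥ (A⁻¹ *ᵥ x) = x i := by
    rw [Matrix.dotProduct_mulVec, ← Matrix.mulVec_transpose, hAs, h1, dotProduct_comm, h2]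
  have h5 : ∀ t : ℝ, 0 ≤ qe A x + 2 * t * x i + t ^ 2 * A i i := by
    intro t
    have h6 := qe_nonneg A hA (x + t • v)
    have h7 : qe A (x + t • v) = qe A x + 2 * t * x i + t ^ 2 * A i i := by
      unfold qe
      rw [Matrix.mulVec_add, Matrix.mulVec_smul, h1, add_dotProduct, dotProduct_add,
        dotProduct_add, smul_dotProduct, smul_dotProduct, dotProduct_smul, dotProduct_smul, h2,
        h3, h4]
      simp only [smul_eq_mul]
      ring
    rw [h7] at h6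
    exact h6
  have h8 := h5 (-(x i / A i i))
  have h9 : qe A x + 2 * -(x i / A i i) * x i + (-(x i / A i i)) ^ 2 * A i i =
      qe A x - x i ^ 2 / A i i := by
    field_simp
    ring
  rw [h9, sub_nonneg, div_le_iff₀ hii] at h8
  rw [mul_comm]
  exact h8

theorem cst : CstStmt := by
  intro I _ _ A M r hA
  obtain ⟨q, hq⟩ : ∃ q : (I → ℤ) → ℝ, q = fun b => qe A (fun i => (b i : ℝ)) := ⟨_, rfl⟩
  obtain ⟨S, hS⟩ : ∃ S : Set (I → ℤ),
      S = {b | (∀ i, (M : ℤ) ∣ b i - r i) ∧ q b ≤ q r} := ⟨_, rfl⟩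
  have hfin : S.Finite := by
    obtain ⟨C, hC⟩ : ∃ C : ℝ, C = ∑ i, |A i i| * |q r| := ⟨_, rfl⟩
    obtain ⟨N, hN⟩ := exists_nat_gt (C + 1)
    apply Set.Finite.subset (Set.finite_Icc (fun _ : I => -(N : ℤ)) (fun _ : I => (N : ℤ)))
    intro b hb
    rw [hS] at hb
    have hb2 : q b ≤ q r := hb.2
    have key : ∀ i, |b i| ≤ (N : ℤ) := by
      intro i
      have h1 := qe_bound A hA (fun i => (b i : ℝ)) i
      have h2 : qe A (fun i => (b i : ℝ)) = q b := by rw [hq]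
      have h3 : (b i : ℝ) ^ 2 ≤ A i i * q b := by rw [← h2]; exact h1
      have hii : 0 < A i i := hA.diag_pos
      have h4 : A i i * q b ≤ |A i i| * |q r| := by
        rw [abs_of_pos hii]
        exact mul_le_mul_of_nonneg_left (hb2.trans (le_abs_self _)) hii.le
      have h5 : |A i i| * |q r| ≤ C := by
        rw [hC]
        exact Finset.single_le_sum (f := fun i => |A i i| * |q r|)
          (fun j _ => mul_nonneg (abs_nonneg _) (abs_nonneg _)) (Finset.mem_univ i)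
      have hC0 : 0 ≤ C := (mul_nonneg (abs_nonneg _) (abs_nonneg _)).trans h5
      have h6 : (b i : ℝ) ^ 2 ≤ (N : ℝ) ^ 2 := by nlinarith
      have h7 : |(b i : ℝ)| ≤ (N : ℝ) := abs_le_of_sq_le_sq h6 (by positivity)
      exact_mod_cast h7
    constructor
    · intro i
      exact (abs_le.mp (key i)).1
    · intro i
      exact (abs_le.mp (key i)).2
  have hne : S.Nonempty := by
    refine ⟨r, ?_⟩
    rw [hS]
    exact ⟨fun i => by rw [sub_self]; exact dvd_zero _, le_refl _⟩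
  obtain ⟨b, hbS, hmin⟩ := Set.exists_min_image S q hfin hne
  rw [hS] at hbS
  refine ⟨b, hbS.1, ?_⟩
  intro z
  obtain ⟨b', hb'⟩ : ∃ b' : I → ℤ, b' = fun i => b i + M * z i := ⟨_, rfl⟩
  have e1 : (fun i => (b i : ℝ)) ⬝ᵥ (A⁻¹ *ᵥ fun i => (b i : ℝ)) = q b := by rw [hq]; rfl
  have e2 : (fun i => (b i : ℝ) + M * z i) = fun i => (b' i : ℝ) := by
    funext i
    rw [hb']
    push_cast
    rfl
  have e3 : (fun i => (b i : ℝ) + M * z i) ⬝ᵥ (A⁻¹ *ᵥ fun i => (b i : ℝ) + M * z i) = q b' := by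
    rw [e2, hq]; rfl
  rw [e1, e3]
  by_cases h : q b' ≤ q r
  · apply hmin b'
    rw [hS]
    refine ⟨?_, h⟩
    intro i
    have : b' i - r i = (b i - r i) + M * z i := by rw [hb']; ring
    rw [this]
    exact dvd_add (hbS.1 i) (dvd_mul_right _ _)
  · exact hbS.2.trans (not_le.mp h).le

end Pool.Agent.HEC.H67
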